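import Pool.Agent.W314.BA.Stm

set_option autoImplicit false

open MeasureTheory Filter Set Topology
open scoped ENNReal NNReal

namespace Pool.Agent.W381.BA.GG

open Pool.Agent.W314.BA
open Pool.Agent.W745 (NN FR HM kk dg fr)

/-- the matrix of `g` has the coordinates `v` -/
def P (g : G) (v : ℤ × ℤ × ℤ × ℤ) : Prop :=
  g.1 0 0 = v.1 + v.2.2.1 * √3 ∧ g.1 0 1 = 3 * v.2.1 + v.2.2.2 * √3 ∧
    g.1 1 0 = -3 * v.2.1 + v.2.2.2 * √3 ∧ g.1 1 1 = v.1 - v.2.2.1 * √3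

theorem s3 : √(3 : ℝ) * √3 = 3 := Real.mul_self_sqrt (by norm_num)

theorem mul_mem {g h : G} (hg : g ∈ GamSet) (hh : h ∈ GamSet) : g * h ∈ GamSet := by
  obtain ⟨a, b, c, d, hn, h1, h2, h3, h4⟩ := hg
  obtain ⟨e, f, i, j, hn', k1, k2, k3, k4⟩ := hh
  have hs := s3
  refine ⟨a * e - 9 * b * f + 3 * c * i + 3 * d * j, a * f + b * e + c * j - d * i,
    a * i + c * e + 3 * b * j - 3 * d * f, a * j + d * e - 3 * b * i + 3 * c * f, ?_, ?_, ?_, ?_, ?_⟩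
  · have : (a * e - 9 * b * f + 3 * c * i + 3 * d * j) ^ 2 + 9 * (a * f + b * e + c * j - d * i) ^ 2
        - 3 * (a * i + c * e + 3 * b * j - 3 * d * f) ^ 2
        - 3 * (a * j + d * e - 3 * b * i + 3 * c * f) ^ 2
        = (a ^ 2 + 9 * b ^ 2 - 3 * c ^ 2 - 3 * d ^ 2) *
          (e ^ 2 + 9 * f ^ 2 - 3 * i ^ 2 - 3 * j ^ 2) := by ring
    rw [this, hn, hn', one_mul]
  · have : (g * h).1 0 0 = g.1 0 0 * h.1 0 0 + g.1 0 1 * h.1 1 0 := by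
      rw [Matrix.SpecialLinearGroup.coe_mul, Matrix.mul_apply, Fin.sum_univ_two]
    rw [this, h1, h2, k1, k3]
    push_cast
    linear_combination ((c : ℝ) * i + d * j) * hs
  · have : (g * h).1 0 1 = g.1 0 0 * h.1 0 1 + g.1 0 1 * h.1 1 1 := by
      rw [Matrix.SpecialLinearGroup.coe_mul, Matrix.mul_apply, Fin.sum_univ_two]
    rw [this, h1, h2, k2, k4]
    push_cast
    linear_combination ((c : ℝ) * j - d * i) * hs
  · have : (g * h).1 1 0 = g.1 1 0 * h.1 0 0 + g.1 1 1 * h.1 1 0 := by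
      rw [Matrix.SpecialLinearGroup.coe_mul, Matrix.mul_apply, Fin.sum_univ_two]
    rw [this, h3, h4, k1, k3]
    push_cast
    linear_combination ((d : ℝ) * i - c * j) * hs
  · have : (g * h).1 1 1 = g.1 1 0 * h.1 0 1 + g.1 1 1 * h.1 1 1 := by
      rw [Matrix.SpecialLinearGroup.coe_mul, Matrix.mul_apply, Fin.sum_univ_two]
    rw [this, h3, h4, k2, k4]
    push_cast
    linear_combination ((d : ℝ) * j + c * i) * hs

theorem one_mem : (1 : G) ∈ GamSet := by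
  refine ⟨1, 0, 0, 0, by norm_num, ?_, ?_, ?_, ?_⟩ <;> simp

theorem neg_one_mem : (-1 : G) ∈ GamSet := by
  refine ⟨-1, 0, 0, 0, by norm_num, ?_, ?_, ?_, ?_⟩ <;> simp

theorem inv_mem {g : G} (hg : g ∈ GamSet) : g⁻¹ ∈ GamSet := by
  obtain ⟨a, b, c, d, hn, h1, h2, h3, h4⟩ := hg
  have hinv : (g⁻¹).1 = !![g.1 1 1, -g.1 0 1; -g.1 1 0, g.1 0 0] := by
    rw [Matrix.SpecialLinearGroup.coe_inv, Matrix.adjugate_fin_two]
  refine ⟨a, -b, -c, -d, by linarith [hn], ?_, ?_, ?_, ?_⟩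
  · rw [hinv]; simp [h4]; ring
  · rw [hinv]; simp [h2]; ring
  · rw [hinv]; simp [h3]; ring
  · rw [hinv]; simp [h1]

theorem hh_eq {g : G} {v : ℤ × ℤ × ℤ × ℤ} (h : P g v) :
    hh g = (v.1 : ℝ) ^ 2 + 9 * (v.2.1 : ℝ) ^ 2 + 3 * (v.2.2.1 : ℝ) ^ 2 + 3 * (v.2.2.2 : ℝ) ^ 2 := by
  obtain ⟨h1, h2, h3, h4⟩ := h
  have hs := s3
  unfold hh NN fr
  rw [h1, h2, h3, h4]
  linear_combination ((v.2.2.1 : ℝ) ^ 2 + (v.2.2.2 : ℝ) ^ 2) * hs

theorem fin (R : ℝ) : {γ : G | γ ∈ GamSet ∧ hh γ ≤ R}.Finite := by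
  classical
  have hex : ∀ γ : G, γ ∈ GamSet → ∃ v, P γ v := by
    rintro γ ⟨a, b, c, d, -, h⟩
    exact ⟨(a, b, c, d), h⟩
  let f : G → ℤ × ℤ × ℤ × ℤ := fun γ => if h : γ ∈ GamSet then Classical.choose (hex γ h) else 0
  have hf : ∀ γ, γ ∈ GamSet → P γ (f γ) := by
    intro γ h
    have : f γ = Classical.choose (hex γ h) := dif_pos h
    rw [this]
    exact Classical.choose_spec (hex γ h)
  let N : ℤ := ⌈R⌉
  have hb : ∀ (n : ℤ) , (n : ℝ) ^ 2 ≤ R → n ∈ Icc (-N) N := by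
    intro n hn
    have h1 : (n ^ 2 : ℤ) ≤ N := by
      have : ((n ^ 2 : ℤ) : ℝ) ≤ (N : ℝ) := by
        push_cast
        exact hn.trans (Int.le_ceil R)
      exact_mod_cast this
    have h2 : |n| ≤ n ^ 2 := by
      rw [← sq_abs]
      rcases eq_or_ne n 0 with h | h
      · simp [h]
      · have := Int.one_le_abs h
        nlinarith
    exact abs_le.1 (h2.trans h1)
  refine Set.Finite.of_injOn (f := f)
    (t := Icc (-N) N ×ˢ Icc (-N) N ×ˢ Icc (-N) N ×ˢ Icc (-N) N) ?_ ?_ ?_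
  · rintro γ ⟨hγ, hR⟩
    rw [hh_eq (hf γ hγ)] at hR
    refine ⟨hb _ ?_, hb _ ?_, hb _ ?_, hb _ ?_⟩ <;>
      nlinarith [sq_nonneg ((f γ).1 : ℝ), sq_nonneg ((f γ).2.1 : ℝ), sq_nonneg ((f γ).2.2.1 : ℝ),
        sq_nonneg ((f γ).2.2.2 : ℝ)]
  · rintro γ ⟨hγ, -⟩ γ' ⟨hγ', -⟩ heq
    obtain ⟨a1, a2, a3, a4⟩ := hf γ hγ
    obtain ⟨b1, b2, b3, b4⟩ := hf γ' hγ'
    rw [heq] at a1 a2 a3 a4
    apply Subtype.ext
    ext i j
    fin_cases i <;> fin_cases j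
    · exact a1.trans b1.symm
    · exact a2.trans b2.symm
    · exact a3.trans b3.symm
    · exact a4.trans b4.symm
  · exact (finite_Icc _ _).prod ((finite_Icc _ _).prod ((finite_Icc _ _).prod (finite_Icc _ _)))

theorem main : GamGroupStmt :=
  ⟨{ carrier := GamSet
     mul_mem' := fun ha hb => mul_mem ha hb
     one_mem' := one_mem
     inv_mem' := fun ha => inv_mem ha }, rfl, neg_one_mem, fun R => fin R⟩

end Pool.Agent.W381.BA.GG
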